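import Mathlib
import Pool.Agent.Y997.NW.Stm

/-!
# Project NW (helper997): the sum of the translated tropical currents is a complex cycle
-/

set_option autoImplicit false

open MeasureTheory Set Topology Filter
open scoped ContDiff NNReal ENNReal

namespace Pool.Agent.Y814.NW

open Pool.Agent.W581.Cyc Pool.Agent.Y997.NW

theorem trop_bd (α : Form 2) (B : ℝ) (hB : ∀ z, ‖α.1 z‖ ≤ B) : |trop α| ≤ 15 * B := by
  rw [trop_apply]
  refine (Finset.abs_sum_le_sum_abs _ _).trans ?_
  have h1 : ∀ j ∈ Finset.univ, |I3 fun a b t => ev α.1 (pt j a b t) (dir j)| ≤ 5 * B := by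
    intro j _
    refine I3_abs_le fun a b t => (abs_ev_le _ _ _).trans ?_
    have := (norm_dir_sq j).1
    have h2 := hB (pt j a b t)
    have h3 := norm_nonneg (α.1 (pt j a b t))
    nlinarith
  refine (Finset.sum_le_sum h1).trans ?_
  simp
  linarith

theorem tropAt_bd (a : C2) (α : Form 2) (B : ℝ) (hB : ∀ z, ‖α.1 z‖ ≤ B) :
    |tropAt a α| ≤ 15 * B :=
  trop_bd (shift a α) B (fun z => hB (z + a))

theorem cube_sub {z : C2} (hz : z ∈ unitCube) : z ∈ Metric.closedBall (0 : C2) 3 := by
  rw [mem_closedBall_zero_iff]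
  have h1 : ∀ j, ‖z j‖ ≤ 2 := by
    intro j
    obtain ⟨⟨h1, h2⟩, h3, h4⟩ := hz j
    refine (Complex.norm_le_abs_re_add_abs_im _).trans ?_
    rw [abs_of_nonneg h1, abs_of_nonneg h3]
    linarith
  have h2 : ‖z‖ ^ 2 ≤ 3 ^ 2 := by
    rw [EuclideanSpace.norm_sq_eq, Fin.sum_univ_two]
    have h3 := h1 0
    have h4 := h1 1
    have h5 := norm_nonneg (z 0)
    have h6 := norm_nonneg (z 1)
    nlinarith
  exact le_of_pow_le_pow_left₀ two_ne_zero (by norm_num) h2

theorem form_bdd (α : Form 2) : ∃ B : ℝ, ∀ z, ‖α.1 z‖ ≤ B := by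
  obtain ⟨B, hB⟩ := (isCompact_closedBall (0 : C2) 3).exists_bound_of_continuousOn
    (formCont α).continuousOn
  refine ⟨B, fun z => ?_⟩
  obtain ⟨n, hn⟩ := exists_cube z
  have h1 := α.2.2 (lat n) (inLattice_lat n) (z - lat n)
  rw [sub_add_cancel] at h1
  rw [h1]
  exact hB _ (cube_sub hn)

/-- the translated one-form -/
noncomputable def shift1 (a : C2) (β : Form 1) : Form 1 :=
  ⟨fun z => β.1 (z + a), β.2.1.comp (contDiff_id.add contDiff_const), fun l hl z => by
    show β.1 (z + l + a) = β.1 (z + a)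
    rw [show z + l + a = z + a + l by abel]
    exact β.2.2 l hl _⟩

theorem tropAt_closed (a : C2) (β : Form 1) (α : Form 2) (h : ∀ z, α.1 z = extDeriv β.1 z) :
    tropAt a α = 0 := by
  refine trop_closed (shift1 a β) (shift a α) fun z => ?_
  show α.1 (z + a) = extDeriv (fun z => β.1 (z + a)) z
  rw [h]
  unfold extDeriv
  rw [fderiv_comp_add_right]

/-- the cone is stable under translations -/
theorem span_shift (a : C2) (d : Form 2 →ₗ[ℝ] ℝ) (hd : d ∈ Submodule.span ℝ≥0 diracCurrents) :
    d.comp (shift a) ∈ Submodule.span ℝ≥0 diracCurrents := by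
  induction hd using Submodule.span_induction with
  | mem d hd =>
    apply Submodule.subset_span
    obtain ⟨z, m, c, e, h⟩ := hd
    exact ⟨z + a, m, c, e, fun α => h (shift a α)⟩
  | zero => exact Submodule.zero_mem _
  | add x y _ _ hx hy =>
    rw [LinearMap.add_comp]
    exact Submodule.add_mem _ hx hy
  | smul r x _ hx =>
    have : (r • x).comp (shift a) = r • (x.comp (shift a)) := rfl
    rw [this]
    exact Submodule.smul_mem _ r hx

theorem tropAt_cone (a : C2) : (fun α => tropAt a α) ∈ closure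
    ((fun (d : Form 2 →ₗ[ℝ] ℝ) (α : Form 2) => d α) ''
      (Submodule.span ℝ≥0 diracCurrents : Set _)) := by
  have hcont : Continuous (fun (F : Form 2 → ℝ) (α : Form 2) => F (shift a α)) :=
    continuous_pi fun α => continuous_apply _
  refine map_mem_closure hcont trop_cone ?_
  rintro F ⟨d, hd, rfl⟩
  exact ⟨d.comp (shift a), span_shift a d hd, rfl⟩

/-- the linear map to the functions on the forms -/
noncomputable def toFn : (Form 2 →ₗ[ℝ] ℝ) →ₗ[ℝ≥0] (Form 2 → ℝ) where
  toFun d α := d α
  map_add' _ _ := rfl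
  map_smul' _ _ := rfl

/-- the cone of the Dirac currents as a set of functions -/
noncomputable def cone : Submodule ℝ≥0 (Form 2 → ℝ) := (Submodule.span ℝ≥0 diracCurrents).map toFn

theorem cone_coe : (cone : Set (Form 2 → ℝ)) = (fun (d : Form 2 →ₗ[ℝ] ℝ) (α : Form 2) => d α) ''
      (Submodule.span ℝ≥0 diracCurrents : Set _) := rfl

theorem t_CUR : S_CUR := by
  intro a w hw hs
  have hsum : ∀ α : Form 2, Summable (fun k => w k * tropAt (a k) α) := by
    intro α
    obtain ⟨B, hB⟩ := form_bdd α
    refine Summable.of_norm_bounded (g := fun k => w k * (15 * B)) (hs.mul_right _) fun k => ?_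
    rw [norm_mul, Real.norm_of_nonneg (hw k), Real.norm_eq_abs]
    exact mul_le_mul_of_nonneg_left (tropAt_bd (a k) α B hB) (hw k)
  let c : Form 2 →ₗ[ℝ] ℝ :=
    { toFun := fun α => ∑' k, w k * tropAt (a k) α
      map_add' := by
        intro α β
        rw [← (hsum α).tsum_add (hsum β)]
        refine tsum_congr fun k => ?_
        rw [map_add, mul_add]
      map_smul' := by
        intro r α
        rw [RingHom.id_apply, smul_eq_mul, ← tsum_mul_left]
        refine tsum_congr fun k => ?_
        rw [map_smul, smul_eq_mul]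
        ring }
  have hc : ∀ α, HasSum (fun k => w k * tropAt (a k) α) (c α) := fun α => (hsum α).hasSum
  refine ⟨c, ⟨?_, ?_, ?_⟩, hc⟩
  · refine ⟨0, (∑' k, w k) * 15, fun α B h => ?_⟩
    have hB : ∀ z, ‖α.1 z‖ ≤ B := fun z => by
      have := h 0 le_rfl z
      rwa [norm_iteratedFDeriv_zero] at this
    have h1 : HasSum (fun k => w k * (15 * B)) ((∑' k, w k) * (15 * B)) :=
      hs.hasSum.mul_right _
    have h2 : ‖∑' k, w k * tropAt (a k) α‖ ≤ (∑' k, w k) * (15 * B) := by
      refine tsum_of_norm_bounded h1 fun k => ?_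
      rw [norm_mul, Real.norm_of_nonneg (hw k), Real.norm_eq_abs]
      exact mul_le_mul_of_nonneg_left (tropAt_bd (a k) α B hB) (hw k)
    rw [Real.norm_eq_abs] at h2
    rw [mul_assoc]
    exact h2
  · intro β α hα
    show ∑' k, w k * tropAt (a k) α = 0
    have : ∀ k, w k * tropAt (a k) α = 0 := fun k => by
      rw [tropAt_closed (a k) β α hα, mul_zero]
    simp only [this, tsum_zero]
  · rw [← cone_coe, ← Submodule.topologicalClosure_coe]
    have hpart : ∀ n : ℕ, (fun α => ∑ k ∈ Finset.range n, w k * tropAt (a k) α) ∈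
        (cone.topologicalClosure : Set (Form 2 → ℝ)) := by
      intro n
      have h : (fun α : Form 2 => ∑ k ∈ Finset.range n, w k * tropAt (a k) α) =
          ∑ k ∈ Finset.range n, (⟨w k, hw k⟩ : ℝ≥0) • (fun α => tropAt (a k) α) := by
        funext α
        rw [Finset.sum_apply]
        rfl
      rw [h]
      refine cone.topologicalClosure.sum_mem fun k _ => ?_
      refine cone.topologicalClosure.smul_mem _ ?_
      have h2 := tropAt_cone (a k)
      rw [← cone_coe, ← Submodule.topologicalClosure_coe] at h2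
      exact h2
    refine cone.isClosed_topologicalClosure.mem_of_tendsto (b := atTop) ?_
      (Eventually.of_forall hpart)
    rw [tendsto_pi_nhds]
    intro α
    exact (hc α).tendsto_sum_nat

end Pool.Agent.Y814.NW
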